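import Pool.Agent.helper62.VQ.SpecE
import Pool.Agent.helper62.RS.GLC
import Pool.Agent.helper92.RS.GMG

/-!
# Row vqe:UWM (MP_07c750_an): uniform weak law along unstable curves
-/

set_option autoImplicit false

open scoped MatrixGroups ContDiff Topology UpperHalfPlane
open UpperHalfPlane MeasureTheory Filter Set

namespace Pool.Agent.VQE

open Pool.Agent.RS

noncomputable section

/-- matrices with bounded entries form a compact set -/
theorem UWM_cpt (R : ℝ) : IsCompact {D : SL(2, ℝ) | ∀ i j, |D.1 i j| ≤ R} := by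
  have hE := Matrix.SpecialLinearGroup.isClosedEmbedding_val (n := Fin 2) (R := ℝ)
  have hK : IsCompact (Set.pi univ (fun _ : Fin 2 => Set.pi univ (fun _ : Fin 2 => Icc (-R) R)) : Set (Fin 2 → Fin 2 → ℝ)) :=
    isCompact_univ_pi fun _ => isCompact_univ_pi fun _ => isCompact_Icc
  have h1 := hE.isCompact_preimage (K := (Set.pi univ (fun _ : Fin 2 => Set.pi univ (fun _ : Fin 2 => Icc (-R) R)) : Set (Matrix (Fin 2) (Fin 2) ℝ))) hK
  have h2 : {D : SL(2, ℝ) | ∀ i j, |D.1 i j| ≤ R} =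
      (fun D : SL(2, ℝ) => D.1) ⁻¹' (Set.pi univ (fun _ : Fin 2 => Set.pi univ (fun _ : Fin 2 => Icc (-R) R)) : Set (Matrix (Fin 2) (Fin 2) ℝ)) := by
    ext D
    constructor
    · intro h i _ j _
      exact abs_le.1 (h i j)
    · intro h i j
      exact abs_le.2 (h i (mem_univ i) j (mem_univ j))
  rw [h2]
  exact h1

theorem UWM_contA {f : ℝ → SL(2, ℝ) → SL(2, ℝ)} {h : SL(2, ℝ) → ℝ} (hf : Continuous (fun x : ℝ × SL(2, ℝ) => f x.1 x.2))
    (hh : Continuous h) (T : ℝ) : Continuous (fun g => avf f h T g) := by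
  have h1 : Continuous (fun g : SL(2, ℝ) => ∫ t in (0 : ℝ)..T, h (f t g)) := by
    have h2 : Continuous (Function.uncurry fun (g : SL(2, ℝ)) (t : ℝ) => h (f t g)) :=
      hh.comp (hf.comp continuous_swap)
    have := (GLC).2.1
    exact intervalIntegral.continuous_parametric_intervalIntegral_of_continuous' h2 0 T
  exact continuous_const.mul h1

theorem UWM_contT {f : ℝ → SL(2, ℝ) → SL(2, ℝ)} {h : SL(2, ℝ) → ℝ} (hf : Continuous (fun x : ℝ × SL(2, ℝ) => f x.1 x.2))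
    (hh : Continuous h) (g : SL(2, ℝ)) : Continuous (fun t => h (f t g)) :=
  hh.comp (hf.comp (Continuous.prodMk continuous_id continuous_const))

theorem UWM_int {u : ℝ → ℝ} (hu : ∀ t, |u t| ≤ 1) (a b : ℝ) : |∫ t in a..b, u t| ≤ |b - a| := by
  have h1 := intervalIntegral.norm_integral_le_of_norm_le_const (a := a) (b := b) (f := u) (C := 1) fun t _ => hu t
  rw [one_mul] at h1
  exact h1

theorem UWM_shift {f : ℝ → SL(2, ℝ) → SL(2, ℝ)} {h : SL(2, ℝ) → ℝ} (hadd : ∀ s t g, f (s + t) g = f s (f t g))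
    (hf : Continuous (fun x : ℝ × SL(2, ℝ) => f x.1 x.2)) (hh : Continuous h) (hb : ∀ g, |h g| ≤ 1) (t T : ℝ) (hT : 0 < T) (g : SL(2, ℝ)) :
    |avf f h T (f t g) - avf f h T g| ≤ 2 * |t| / T := by
  have hc := UWM_contT hf hh g
  have hi : ∀ a b : ℝ, IntervalIntegrable (fun s => h (f s g)) volume a b := fun a b => hc.intervalIntegrable a b
  have h1 : ∫ s in (0 : ℝ)..T, h (f s (f t g)) = ∫ s in t..(T + t), h (f s g) := by
    have h2 : ∀ s, h (f s (f t g)) = (fun s => h (f s g)) (s + t) := fun s => by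
      show h (f s (f t g)) = h (f (s + t) g)
      rw [hadd]
    rw [intervalIntegral.integral_congr (g := fun s => (fun s => h (f s g)) (s + t)) fun s _ => h2 s,
      intervalIntegral.integral_comp_add_right (fun s => h (f s g)) t, zero_add]
  have h3 : (∫ s in t..(T + t), h (f s g)) - ∫ s in (0 : ℝ)..T, h (f s g) =
      (∫ s in T..(T + t), h (f s g)) - ∫ s in (0 : ℝ)..t, h (f s g) := by
    have h4 := intervalIntegral.integral_add_adjacent_intervals (hi 0 t) (hi t (T + t))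
    have h5 := intervalIntegral.integral_add_adjacent_intervals (hi 0 T) (hi T (T + t))
    linarith
  have h6 : avf f h T (f t g) - avf f h T g = T⁻¹ * ((∫ s in T..(T + t), h (f s g)) - ∫ s in (0 : ℝ)..t, h (f s g)) := by
    unfold avf
    rw [← mul_sub, h1, h3]
  have h7 : |(∫ s in T..(T + t), h (f s g)) - ∫ s in (0 : ℝ)..t, h (f s g)| ≤ 2 * |t| := by
    have h8 := UWM_int (u := fun s => h (f s g)) (fun s => hb _) T (T + t)
    have h9 := UWM_int (u := fun s => h (f s g)) (fun s => hb _) 0 t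
    rw [add_sub_cancel_left] at h8
    rw [sub_zero] at h9
    refine (abs_sub _ _).trans ?_
    linarith
  rw [h6, abs_mul, abs_of_pos (inv_pos.2 hT), div_eq_inv_mul]
  exact mul_le_mul_of_nonneg_left h7 (inv_pos.2 hT).le

theorem UWM_floor {f : ℝ → SL(2, ℝ) → SL(2, ℝ)} {h : SL(2, ℝ) → ℝ}
    (hf : Continuous (fun x : ℝ × SL(2, ℝ) => f x.1 x.2)) (hh : Continuous h) (hb : ∀ g, |h g| ≤ 1) (n T : ℝ) (hn : 0 < n) (hnT : n ≤ T)
    (hT : T ≤ n + 1) (g : SL(2, ℝ)) : |avf f h T g - avf f h n g| ≤ 2 / T := by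
  have hc := UWM_contT hf hh g
  have hi : ∀ a b : ℝ, IntervalIntegrable (fun s => h (f s g)) volume a b := fun a b => hc.intervalIntegrable a b
  have hT0 : 0 < T := by linarith
  have h1 := intervalIntegral.integral_add_adjacent_intervals (hi 0 n) (hi n T)
  have h2 : avf f h T g - avf f h n g = T⁻¹ * (∫ s in n..T, h (f s g)) + (T⁻¹ - n⁻¹) * ∫ s in (0 : ℝ)..n, h (f s g) := by
    unfold avf
    rw [← h1]
    ring
  have h3 := UWM_int (u := fun s => h (f s g)) (fun s => hb _) n T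
  have h4 := UWM_int (u := fun s => h (f s g)) (fun s => hb _) 0 n
  rw [abs_of_nonneg (by linarith : (0 : ℝ) ≤ T - n)] at h3
  rw [sub_zero, abs_of_pos hn] at h4
  have h5 : |T⁻¹ - n⁻¹| = n⁻¹ - T⁻¹ := by
    rw [abs_sub_comm, abs_of_nonneg]
    exact sub_nonneg.2 (inv_anti₀ hn hnT)
  rw [h2]
  calc |T⁻¹ * (∫ s in n..T, h (f s g)) + (T⁻¹ - n⁻¹) * ∫ s in (0 : ℝ)..n, h (f s g)|
      ≤ |T⁻¹ * (∫ s in n..T, h (f s g))| + |(T⁻¹ - n⁻¹) * ∫ s in (0 : ℝ)..n, h (f s g)| := abs_add_le _ _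
    _ ≤ T⁻¹ * (T - n) + (n⁻¹ - T⁻¹) * n := by
        rw [abs_mul, abs_mul, abs_of_pos (inv_pos.2 hT0), h5]
        refine add_le_add (mul_le_mul_of_nonneg_left h3 (inv_pos.2 hT0).le) (mul_le_mul_of_nonneg_left h4 ?_)
        exact sub_nonneg.2 (inv_anti₀ hn hnT)
    _ = 2 * (T - n) / T := by
        field_simp
        ring
    _ ≤ 2 / T := by
        refine div_le_div_of_nonneg_right ?_ hT0.le
        linarith

theorem UWM_bd {f : ℝ → SL(2, ℝ) → SL(2, ℝ)} {h : SL(2, ℝ) → ℝ} (hb : ∀ g, |h g| ≤ 1) (T : ℝ) (hT : 0 ≤ T) (g : SL(2, ℝ)) :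
    |avf f h T g| ≤ 1 := by
  have h4 := UWM_int (u := fun s => h (f s g)) (fun s => hb _) 0 T
  rw [sub_zero, abs_of_nonneg hT] at h4
  unfold avf
  rw [abs_mul, abs_of_nonneg (inv_nonneg.2 hT)]
  calc T⁻¹ * |∫ t in (0 : ℝ)..T, h (f t g)| ≤ T⁻¹ * T := mul_le_mul_of_nonneg_left h4 (inv_nonneg.2 hT)
    _ ≤ 1 := by
        rcases hT.eq_or_lt with h0 | h0
        · rw [← h0, mul_zero]
          exact zero_le_one
        · rw [inv_mul_cancel₀ h0.ne']

/-- the exceptional set is small for large times -/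
theorem UWM_cheb {Γ : Subgroup SL(2, ℝ)} {F : Set ℍ} {L : ℝ} {p q : SL(2, ℝ) → ℝ} {f : ℝ → SL(2, ℝ) → SL(2, ℝ)} {h : SL(2, ℝ) → ℝ}
    (hF : QU.NiceDom Γ F) (hfl : FlG Γ p q f) (hh : Tf Γ L h) (hM : MSC F f h) (e η : ℝ) (he : 0 < e) (hη : 0 < η) :
    ∃ T1 : ℝ, ∀ T : ℝ, T1 ≤ T → mG ({g | e ≤ |avf f h T g - mnG F h|} ∩ dG F) ≤ ENNReal.ofReal η := by
  obtain ⟨K, hK, hFK⟩ := hF.rel
  have hmeas : MeasurableSet (dG F) := ((GMG GLC).1 F hF.meas).1
  have hfin : mG (dG F) < ⊤ := by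
    refine lt_of_le_of_lt (measure_mono (t := {g : SL(2, ℝ) | g • I ∈ K}) fun g hg => hFK hg) ?_
    exact (GMG GLC).2.1 _ ((GLC).2.2.1 K hK)
  have hfm : IsFiniteMeasure (mG.restrict (dG F)) := ⟨by rw [Measure.restrict_apply_univ]; exact hfin⟩
  have hsc := (GLC).2.1
  have hpos : 0 < η * (e / 2) ^ 2 := by positivity
  have h1 := (hM.eventually (gt_mem_nhds hpos))
  obtain ⟨n0, hn0⟩ := eventually_atTop.1 h1
  refine ⟨max ((n0 : ℝ) + 1) (4 / e + 1), fun T hT => ?_⟩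
  have hT1 : (n0 : ℝ) + 1 ≤ T := le_trans (le_max_left _ _) hT
  have hT2 : 4 / e + 1 ≤ T := le_trans (le_max_right _ _) hT
  have h4e : 0 < 4 / e := by positivity
  have hT0 : 1 < T := by linarith
  set n : ℕ := ⌊T⌋₊ with hn
  have hnT : (n : ℝ) ≤ T := Nat.floor_le (by linarith)
  have hTn : T < (n : ℝ) + 1 := Nat.lt_floor_add_one T
  have hn1 : 1 ≤ n := Nat.one_le_floor_iff T |>.2 hT0.le
  have hn1' : (1 : ℝ) ≤ (n : ℝ) := by exact_mod_cast hn1
  have hn0n : n0 ≤ n := by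
    have h2 : (n0 : ℝ) < (n : ℝ) + 1 := by linarith
    have h3 : n0 < n + 1 := by exact_mod_cast h2
    omega
  have hcn := UWM_contA hfl.cont hh.cont (n : ℝ)
  have hcT := UWM_contA hfl.cont hh.cont T
  have hsub : {g | e ≤ |avf f h T g - mnG F h|} ⊆ {g | (e / 2) ^ 2 ≤ (avf f h n g - mnG F h) ^ 2} := by
    intro g hg
    have h2 := UWM_floor hfl.cont hh.cont hh.bd (n : ℝ) T (by linarith) hnT hTn.le g
    have h3 : 2 / T ≤ e / 2 := by
      rw [div_le_iff₀ (by linarith)]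
      have h4 : 4 / e ≤ T := by linarith
      rw [div_le_iff₀ he] at h4
      linarith
    have h5 : e ≤ |avf f h T g - mnG F h| := hg
    have h6 : |avf f h T g - mnG F h| ≤ |avf f h T g - avf f h n g| + |avf f h n g - mnG F h| := abs_sub_le _ _ _
    have h7 : e / 2 ≤ |avf f h n g - mnG F h| := by linarith
    show (e / 2) ^ 2 ≤ (avf f h n g - mnG F h) ^ 2
    rw [← sq_abs (avf f h n g - mnG F h)]
    exact pow_le_pow_left₀ (by linarith) h7 2
  have hint : Integrable (fun g => (avf f h n g - mnG F h) ^ 2) (mG.restrict (dG F)) := by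
    refine Integrable.of_bound (C := (1 + |mnG F h|) ^ 2) ?_ (Eventually.of_forall fun g => ?_)
    · exact ((hcn.sub continuous_const).pow 2).aestronglyMeasurable
    · rw [Real.norm_eq_abs, abs_pow]
      refine pow_le_pow_left₀ (abs_nonneg _) ?_ 2
      refine (abs_sub _ _).trans ?_
      have h8 := UWM_bd (f := f) hh.bd (n : ℝ) (by linarith) g
      linarith
  have h9 := mul_meas_ge_le_integral_of_nonneg (μ := mG.restrict (dG F)) (f := fun g => (avf f h n g - mnG F h) ^ 2)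
    (Eventually.of_forall fun g => sq_nonneg _) hint ((e / 2) ^ 2)
  have h10 : (e / 2) ^ 2 * (mG.restrict (dG F)).real {g | (e / 2) ^ 2 ≤ (avf f h n g - mnG F h) ^ 2} ≤ (e / 2) ^ 2 * η := by
    refine h9.trans ?_
    have h11 := hn0 n hn0n
    rw [mul_comm ((e / 2) ^ 2) η]
    exact h11.le
  have h12 : (mG.restrict (dG F)).real {g | (e / 2) ^ 2 ≤ (avf f h n g - mnG F h) ^ 2} ≤ η :=
    le_of_mul_le_mul_left h10 (by positivity)
  calc mG ({g | e ≤ |avf f h T g - mnG F h|} ∩ dG F) ≤ (mG.restrict (dG F)) {g | e ≤ |avf f h T g - mnG F h|} :=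
        Measure.le_restrict_apply _ _
    _ ≤ (mG.restrict (dG F)) {g | (e / 2) ^ 2 ≤ (avf f h n g - mnG F h) ^ 2} := measure_mono hsub
    _ = ENNReal.ofReal ((mG.restrict (dG F)).real {g | (e / 2) ^ 2 ≤ (avf f h n g - mnG F h) ^ 2}) := by
        rw [ofReal_measureReal]
    _ ≤ ENNReal.ofReal η := ENNReal.ofReal_le_ofReal h12

theorem UWM_inv (D : SL(2, ℝ)) : D⁻¹.1 0 0 = D.1 1 1 ∧ D⁻¹.1 1 1 = D.1 0 0 ∧ D⁻¹.1 0 1 = -D.1 0 1 ∧ D⁻¹.1 1 0 = -D.1 1 0 := by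
  have h : D⁻¹.1 = !![D.1 1 1, -D.1 0 1; -D.1 1 0, D.1 0 0] := by
    rw [← Matrix.adjugate_fin_two D.1]
    rfl
  rw [h]
  exact ⟨rfl, rfl, rfl, rfl⟩

theorem UWM_ent {C1 : ℝ} {γ : ℝ → SL(2, ℝ)} (hγ : UC C1 (1 / 10) γ) (hC : 1 ≤ C1) {v v' : ℝ} (h0 : 0 ≤ v) (hv : v < v') (h1 : v' ≤ 1)
    (hs : C1 * (v' - v) ≤ 1 / 1000) : ∀ i j, |((γ v)⁻¹ * γ v').1 i j| ≤ 2 := by
  set D := (γ v)⁻¹ * γ v' with hD
  have hlo := hγ.lo v v' h0 hv h1
  have hhi := hγ.hi v v' h0 hv h1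
  have hco := hγ.cone v v' h0 hv h1
  rw [← hD] at hlo hhi hco
  have hc0 : 0 < D.1 1 0 := lt_of_lt_of_le (div_pos (by linarith) (by linarith)) hlo
  have hc1 : D.1 1 0 ≤ 1 / 1000 := hhi.trans hs
  have hdet : D.1 0 0 * D.1 1 1 - D.1 0 1 * D.1 1 0 = 1 := by
    have := D.2
    rwa [Matrix.det_fin_two] at this
  have hb : |D.1 0 1| ≤ 1 / 10000 := by
    have := abs_nonneg (D.1 0 0 - D.1 1 1)
    linarith
  have ha : |D.1 0 0 - D.1 1 1| ≤ 1 / 10000 := by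
    have := abs_nonneg (D.1 0 1)
    linarith
  obtain ⟨hb1, hb2⟩ := abs_le.1 hb
  obtain ⟨ha1, ha2⟩ := abs_le.1 ha
  have hbc : D.1 0 1 * D.1 1 0 ≤ 1 / 10000000 := by nlinarith
  have h00 : |D.1 0 0| ≤ 2 := by
    rw [abs_le]
    constructor <;> by_contra hcon <;> push Not at hcon <;> nlinarith
  have h11 : |D.1 1 1| ≤ 2 := by
    rw [abs_le]
    constructor <;> by_contra hcon <;> push Not at hcon <;> nlinarith
  intro i j
  fin_cases i <;> fin_cases j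
  · exact h00
  · show |D.1 0 1| ≤ 2
    linarith
  · show |D.1 1 0| ≤ 2
    rw [abs_of_pos hc0]
    linarith
  · exact h11

theorem UWM_ent2 {C1 : ℝ} {γ : ℝ → SL(2, ℝ)} (hγ : UC C1 (1 / 10) γ) (hC : 1 ≤ C1) {v v' : ℝ} (hv : v ∈ Icc (0 : ℝ) 1) (hv' : v' ∈ Icc (0 : ℝ) 1)
    (hs : C1 * |v' - v| ≤ 1 / 1000) : ∀ i j, |((γ v)⁻¹ * γ v').1 i j| ≤ 2 := by
  rcases lt_trichotomy v v' with h | h | h
  · rw [abs_of_pos (by linarith)] at hs
    exact UWM_ent hγ hC hv.1 h hv'.2 hs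
  · rw [h, inv_mul_cancel]
    intro i j
    fin_cases i <;> fin_cases j <;> simp
  · rw [abs_sub_comm, abs_of_pos (by linarith)] at hs
    have h1 := UWM_ent hγ hC hv'.1 h hv.2 hs
    have h2 : (γ v)⁻¹ * γ v' = ((γ v')⁻¹ * γ v)⁻¹ := by group
    rw [h2]
    obtain ⟨e1, e2, e3, e4⟩ := UWM_inv ((γ v')⁻¹ * γ v)
    intro i j
    fin_cases i <;> fin_cases j
    · show |((γ v')⁻¹ * γ v)⁻¹.1 0 0| ≤ 2
      rw [e1]; exact h1 1 1
    · show |((γ v')⁻¹ * γ v)⁻¹.1 0 1| ≤ 2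
      rw [e3, abs_neg]; exact h1 0 1
    · show |((γ v')⁻¹ * γ v)⁻¹.1 1 0| ≤ 2
      rw [e4, abs_neg]; exact h1 1 0
    · show |((γ v')⁻¹ * γ v)⁻¹.1 1 1| ≤ 2
      rw [e2]; exact h1 0 0

theorem UWM_avinv {Γ : Subgroup SL(2, ℝ)} {L : ℝ} {p q : SL(2, ℝ) → ℝ} {f : ℝ → SL(2, ℝ) → SL(2, ℝ)} {h : SL(2, ℝ) → ℝ}
    (hfl : FlG Γ p q f) (hh : Tf Γ L h) (T : ℝ) (γ : Γ) (g : SL(2, ℝ)) : avf f h T ((γ : SL(2, ℝ)) * g) = avf f h T g := by
  unfold avf
  congr 1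
  refine intervalIntegral.integral_congr fun t _ => ?_
  show h (f t ((γ : SL(2, ℝ)) * g)) = h (f t g)
  rw [hfl.inv, hh.inv]

theorem UWM_UC {C1 κ : ℝ} {γ : ℝ → SL(2, ℝ)} (hγ : UC C1 κ γ) (k : SL(2, ℝ)) : UC C1 κ (fun v => k * γ v) := by
  have h1 : ∀ v v', (k * γ v)⁻¹ * (k * γ v') = (γ v)⁻¹ * γ v' := fun v v' => by group
  refine ⟨continuousOn_const.mul hγ.cont, fun v v' a b c => ?_, fun v v' a b c => ?_, fun v v' a b c => ?_⟩
  · show (v' - v) / C1 ≤ ((k * γ v)⁻¹ * (k * γ v')).1 1 0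
    rw [h1]
    exact hγ.lo v v' a b c
  · show ((k * γ v)⁻¹ * (k * γ v')).1 1 0 ≤ C1 * (v' - v)
    rw [h1]
    exact hγ.hi v v' a b c
  · show |((k * γ v)⁻¹ * (k * γ v')).1 0 1| + |((k * γ v)⁻¹ * (k * γ v')).1 0 0 - ((k * γ v)⁻¹ * (k * γ v')).1 1 1| ≤
      κ * ((k * γ v)⁻¹ * (k * γ v')).1 1 0
    rw [h1]
    exact hγ.cone v v' a b c

theorem UWM_dg (h1 : NMB_stmt) (b c : ℝ) (hb : |b| ≤ 1 / 8) (hc : |c| ≤ 1 / 8) : ∀ i j, |(dg b c).1 i j| ≤ 2 := by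
  have h2 := h1.2.2.2.2.2.2.2.1 b c hb hc
  have h3 : nm (dg b c) ≤ 1 / 8 := h2.trans (max_le hb hc)
  unfold nm at h3
  have h4 := (le_max_left _ _).trans h3
  have h5 := (le_max_right _ _).trans h3
  have e00 := (le_max_left _ _).trans h4
  have e01 := (le_max_right _ _).trans h4
  have e10 := (le_max_left _ _).trans h5
  have e11 := (le_max_right _ _).trans h5
  intro i j
  fin_cases i <;> fin_cases j
  · show |(dg b c).1 0 0| ≤ 2
    rw [abs_le] at e00 ⊢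
    constructor <;> linarith
  · show |(dg b c).1 0 1| ≤ 2
    linarith
  · show |(dg b c).1 1 0| ≤ 2
    linarith
  · show |(dg b c).1 1 1| ≤ 2
    rw [abs_le] at e11 ⊢
    constructor <;> linarith

/-- the compact set -/
def UWM_K (f : ℝ → SL(2, ℝ) → SL(2, ℝ)) (KG : Set SL(2, ℝ)) : Set SL(2, ℝ) :=
  (fun x : SL(2, ℝ) × SL(2, ℝ) => x.1 * x.2) ''
    (((fun x : ℝ × SL(2, ℝ) => f x.1 x.2) '' (Icc (0 : ℝ) (1 / 1000) ×ˢ
      ((fun x : SL(2, ℝ) × SL(2, ℝ) => x.1 * x.2) '' (KG ×ˢ {D : SL(2, ℝ) | ∀ i j, |D.1 i j| ≤ 2})))) ×ˢ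
      {D : SL(2, ℝ) | ∀ i j, |D.1 i j| ≤ 2})

theorem UWM_Kc {f : ℝ → SL(2, ℝ) → SL(2, ℝ)} (hf : Continuous (fun x : ℝ × SL(2, ℝ) => f x.1 x.2)) {KG : Set SL(2, ℝ)} (hK : IsCompact KG) :
    IsCompact (UWM_K f KG) :=
  (((isCompact_Icc.prod ((hK.prod (UWM_cpt 2)).image continuous_mul)).image hf).prod (UWM_cpt 2)).image continuous_mul

theorem UWM_proof (h1 : NMB_stmt) (h2 : STP_stmt) (h3 : AVE_stmt) (h4 : NUA_stmt) (h5 : FDK_stmt) (h6 : CUR_stmt) : UWM_stmt := by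
  intro Γ F δ L p q f h hΓ hF hδ0 hδ hL hfld hfl hh hM e v0 C1 he hv0 hC1
  have hC10 : 0 < C1 := by linarith
  obtain ⟨KF, hKF, hFK⟩ := hF.rel
  have hKG : IsCompact {g : SL(2, ℝ) | g • I ∈ KF} := (GLC).2.2.1 KF hKF
  have hK := UWM_Kc hfl.cont hKG
  set K := UWM_K f {g : SL(2, ℝ) | g • I ∈ KF} with hKdef
  obtain ⟨C, hC⟩ := h4 K (1 / (4 * C1)) hK (by positivity)
  obtain ⟨m, hm⟩ := h5 Γ F K hΓ hF hK
  set N : ℕ := ⌊1000 * C1⌋₊ + 1 with hN
  set c0 : ℝ := N * ((C : ℝ) * m * 10 ^ 6) with hc0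
  have hc00 : 0 ≤ c0 := by positivity
  set η : ℝ := v0 / (c0 + 1) with hη
  have hη0 : 0 < η := by positivity
  have hcη : c0 * η ≤ v0 := by
    rw [hη, mul_div_assoc', div_le_iff₀ (by linarith)]
    nlinarith
  obtain ⟨T1, hT1⟩ := UWM_cheb hF hfl hh hM (e / 2) η (by linarith) hη0
  have hT00 : 0 ≤ 2 * (L + 2) / e := by positivity
  refine ⟨max T1 (2 * (L + 2) / e + 1), lt_of_lt_of_le (by linarith) (le_max_right _ _), fun T hT γ hγ => ?_⟩
  have hTT1 : T1 ≤ T := le_trans (le_max_left _ _) hT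
  have hTT2 : 2 * (L + 2) / e + 1 ≤ T := le_trans (le_max_right _ _) hT
  have hT0 : 0 < T := by linarith
  have hLT : (L + 2) / T ≤ e / 2 := by
    rw [div_le_iff₀ hT0]
    have h7 : 2 * (L + 2) / e ≤ T := by linarith
    rw [div_le_iff₀ he] at h7
    linarith
  have hcT := UWM_contA hfl.cont hh.cont T
  set A : Set SL(2, ℝ) := {g | e / 2 ≤ |avf f h T g - mnG F h|} with hA
  have hAc : IsClosed A := isClosed_le continuous_const ((hcT.sub continuous_const).abs)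
  have hAinv : ∀ (γ : Γ) (g : SL(2, ℝ)), (γ : SL(2, ℝ)) * g ∈ A ↔ g ∈ A := by
    intro γ g
    show e / 2 ≤ |avf f h T ((γ : SL(2, ℝ)) * g) - mnG F h| ↔ e / 2 ≤ |avf f h T g - mnG F h|
    rw [UWM_avinv hfl hh]
  have hmA : mG (A ∩ K) ≤ m * ENNReal.ofReal η :=
    (hm A hAc.measurableSet hAinv).trans (mul_le_mul_right (hT1 T hTT1) _)
  set B : Set ℝ := {v ∈ Icc (0 : ℝ) 1 | e ≤ |avf f h T (γ v) - mnG F h|} with hB
  have hell : 0 < 1 / (1000 * C1) := by positivity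
  have key : ∀ j : ℕ, volume (B ∩ Icc ((j : ℝ) * (1 / (1000 * C1))) (((j : ℝ) + 1) * (1 / (1000 * C1)))) ≤
      ENNReal.ofReal ((C : ℝ) * m * η * 10 ^ 6) := by
    intro j
    set J := Icc ((j : ℝ) * (1 / (1000 * C1))) (((j : ℝ) + 1) * (1 / (1000 * C1))) with hJ
    have hJd : ∀ v ∈ J, ∀ v' ∈ J, C1 * |v - v'| ≤ 1 / 1000 := by
      intro v hv v' hv'
      have h7 : |v - v'| ≤ 1 / (1000 * C1) := by
        rw [abs_le]
        constructor
        · have := hv.1; have := hv'.2; linarith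
        · have := hv.2; have := hv'.1; linarith
      calc C1 * |v - v'| ≤ C1 * (1 / (1000 * C1)) := mul_le_mul_of_nonneg_left h7 hC10.le
        _ = 1 / 1000 := by field_simp
    rcases (B ∩ J).eq_empty_or_nonempty with hE | ⟨vs, hvs⟩
    · rw [hE, measure_empty]
      exact zero_le
    obtain ⟨γ0, hγ0, -⟩ := hF.uniq (γ vs • I)
    have hγ' := UWM_UC hγ (γ0 : SL(2, ℝ))
    set γ' : ℝ → SL(2, ℝ) := fun v => (γ0 : SL(2, ℝ)) * γ v with hγ'def
    have hvsK : γ' vs ∈ {g : SL(2, ℝ) | g • I ∈ KF} := by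
      show ((γ0 : SL(2, ℝ)) * γ vs) • I ∈ KF
      rw [mul_smul]
      exact hFK hγ0
    set Θ : (Fin 3 → ℝ) → SL(2, ℝ) := fun z => Sb p q f (z 2) (f (z 1) (γ' (z 0))) with hΘ
    set Z : Set (Fin 3 → ℝ) := Set.pi univ ![B ∩ J, Icc (0 : ℝ) (1 / 1000), Icc (0 : ℝ) (1 / 1000)] with hZ
    have hZ0 : ∀ z ∈ Z, z 0 ∈ B ∩ J := fun z hz => hz 0 (mem_univ _)
    have hZ1 : ∀ z ∈ Z, z 1 ∈ Icc (0 : ℝ) (1 / 1000) := fun z hz => hz 1 (mem_univ _)
    have hZ2 : ∀ z ∈ Z, z 2 ∈ Icc (0 : ℝ) (1 / 1000) := fun z hz => hz 2 (mem_univ _)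
    have hZ1' : ∀ z ∈ Z, |z 1| ≤ 1 / 1000 := fun z hz => by
      rw [abs_of_nonneg (hZ1 z hz).1]; exact (hZ1 z hz).2
    have hZ2' : ∀ z ∈ Z, |z 2| ≤ 1 / 1000 := fun z hz => by
      rw [abs_of_nonneg (hZ2 z hz).1]; exact (hZ2 z hz).2
    have hst : ∀ z ∈ Z, ∀ g : SL(2, ℝ), |st p q f g (z 2)| ≤ 1 / 8 ∧ ∃ x y : ℝ → ℝ, SM p q f g x y ∧ x 0 = z 2 ∧ y 0 = st p q f g (z 2) := by
      intro z hz g
      have h7 := (h2 δ p q f hδ0 hδ hfld hfl.toFlw).1 g (z 2) (by have := hZ2' z hz; linarith)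
      exact ⟨by have := hZ2' z hz; linarith [h7.1], h7.2⟩
    have hin : ∀ z ∈ Z, Θ z ∈ A ∩ K := by
      intro z hz
      have hz0 := hZ0 z hz
      obtain ⟨hs1, x, y, hSM, hx, hy⟩ := hst z hz (f (z 1) (γ' (z 0)))
      have hΘz : Θ z = f (z 1) (γ' (z 0)) * dg (x 0) (y 0) := by
        rw [hx, hy]
        rfl
      constructor
      · have h7 := h3 Γ δ L p q f h hδ0 hδ hL hfld hfl.toFlw hh (f (z 1) (γ' (z 0))) x y hSM T hT0
        rw [← hΘz] at h7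
        have h8 := UWM_shift hfl.add hfl.cont hh.cont hh.bd (z 1) T hT0 (γ' (z 0))
        have h9 : avf f h T (γ' (z 0)) = avf f h T (γ (z 0)) := UWM_avinv hfl hh T γ0 (γ (z 0))
        have h10 : e ≤ |avf f h T (γ (z 0)) - mnG F h| := hz0.1.2
        have h11 : 2 * |z 1| / T ≤ 1 / T := by
          refine div_le_div_of_nonneg_right ?_ hT0.le
          have := hZ1' z hz
          linarith
        rw [h9] at h8
        have h12 : |avf f h T (γ (z 0)) - mnG F h| ≤ |avf f h T (Θ z) - mnG F h| + |avf f h T (Θ z) - avf f h T (f (z 1) (γ' (z 0)))| +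
            |avf f h T (f (z 1) (γ' (z 0))) - avf f h T (γ (z 0))| := by
          have h13 : avf f h T (γ (z 0)) - mnG F h = (avf f h T (Θ z) - mnG F h) - (avf f h T (Θ z) - avf f h T (f (z 1) (γ' (z 0)))) -
              (avf f h T (f (z 1) (γ' (z 0))) - avf f h T (γ (z 0))) := by ring
          rw [h13]
          exact (abs_sub _ _).trans (add_le_add (abs_sub _ _) le_rfl)
        have h14 : (L + 1) / T + 1 / T = (L + 2) / T := by
          rw [← add_div]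
          ring
        show e / 2 ≤ |avf f h T (Θ z) - mnG F h|
        linarith
      · rw [hΘz]
        refine ⟨(f (z 1) (γ' (z 0)), dg (x 0) (y 0)), ⟨?_, ?_⟩, rfl⟩
        · refine ⟨(z 1, γ' (z 0)), ⟨hZ1 z hz, ?_⟩, rfl⟩
          refine ⟨(γ' vs, (γ' vs)⁻¹ * γ' (z 0)), ⟨hvsK, ?_⟩, ?_⟩
          · exact UWM_ent2 hγ' hC1 hvs.1.1 hz0.1.1 (hJd _ hz0.2 _ hvs.2)
          · show γ' vs * ((γ' vs)⁻¹ * γ' (z 0)) = γ' (z 0)
            group
        · rw [hx, hy]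
          exact UWM_dg h1 _ _ (by have := hZ2' z hz; linarith) hs1
    have hsep : ∀ z ∈ Z, ∀ z' ∈ Z, 1 / (4 * C1) * dist z z' ≤ nm ((Θ z)⁻¹ * Θ z') := by
      intro z hz z' hz'
      have hz0 := hZ0 z hz
      have hz0' := hZ0 z' hz'
      have h7 := h6 δ C1 p q f γ' hδ0 hδ hC1 hfld hfl.toFlw hγ' (z 0) (z' 0) (z 1) (z' 1) (z 2) (z' 2) hz0.1.1 hz0'.1.1
        (hJd _ hz0.2 _ hz0'.2) (hZ1' z hz) (hZ1' z' hz') (hZ2' z hz) (hZ2' z' hz')
      set M := max (|z 0 - z' 0| / C1) (max |z 1 - z' 1| |z 2 - z' 2|) with hMdef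
      have hM0 : 0 ≤ M := le_trans (by positivity) (le_max_left _ _)
      have hM1 : M ≤ C1 * M := le_mul_of_one_le_left hM0 hC1
      have h8 : dist z z' ≤ C1 * M := by
        rw [dist_pi_le_iff (by positivity)]
        intro i
        fin_cases i
        · show dist (z 0) (z' 0) ≤ C1 * M
          rw [Real.dist_eq]
          have h9 : |z 0 - z' 0| / C1 ≤ M := le_max_left _ _
          rw [div_le_iff₀ hC10] at h9
          linarith
        · show dist (z 1) (z' 1) ≤ C1 * M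
          rw [Real.dist_eq]
          exact le_trans (le_trans (le_max_left _ _) (le_max_right _ _)) hM1
        · show dist (z 2) (z' 2) ≤ C1 * M
          rw [Real.dist_eq]
          exact le_trans (le_trans (le_max_right _ _) (le_max_right _ _)) hM1
      calc 1 / (4 * C1) * dist z z' ≤ 1 / (4 * C1) * (C1 * M) := mul_le_mul_of_nonneg_left h8 (by positivity)
        _ = M / 4 := by field_simp
        _ ≤ nm ((Θ z)⁻¹ * Θ z') := h7
    have hvol := hC Θ Z (A ∩ K) (hAc.measurableSet.inter hK.isClosed.measurableSet) inter_subset_right hin hsep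
    have hZv : volume Z = volume (B ∩ J) * (ENNReal.ofReal (1 / 1000) * ENNReal.ofReal (1 / 1000)) := by
      rw [hZ, volume_pi_pi, Fin.prod_univ_three]
      show volume (B ∩ J) * volume (Icc (0 : ℝ) (1 / 1000)) * volume (Icc (0 : ℝ) (1 / 1000)) = _
      rw [Real.volume_Icc, sub_zero, mul_assoc]
    have h15 : volume (B ∩ J) * (ENNReal.ofReal (1 / 1000) * ENNReal.ofReal (1 / 1000)) ≤ ENNReal.ofReal ((C : ℝ) * m * η) := by
      rw [← hZv]
      refine (hvol.trans (mul_le_mul_right hmA _)).trans (le_of_eq ?_)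
      rw [ENNReal.ofReal_mul (by positivity), ENNReal.ofReal_mul (by positivity), ENNReal.ofReal_natCast, ENNReal.ofReal_coe_nnreal, mul_assoc]
    calc volume (B ∩ J) = volume (B ∩ J) * (ENNReal.ofReal (1 / 1000) * ENNReal.ofReal (1 / 1000)) * ENNReal.ofReal (10 ^ 6) := by
          rw [mul_assoc, ← ENNReal.ofReal_mul (by norm_num), ← ENNReal.ofReal_mul (by norm_num)]
          norm_num
      _ ≤ ENNReal.ofReal ((C : ℝ) * m * η) * ENNReal.ofReal (10 ^ 6) := mul_le_mul_left h15 _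
      _ = ENNReal.ofReal ((C : ℝ) * m * η * 10 ^ 6) := (ENNReal.ofReal_mul (by positivity)).symm
  have hcov : B ⊆ ⋃ j ∈ Finset.range N, B ∩ Icc ((j : ℝ) * (1 / (1000 * C1))) (((j : ℝ) + 1) * (1 / (1000 * C1))) := by
    intro v hv
    have hv0 : 0 ≤ v := hv.1.1
    have hv1 : v ≤ 1 := hv.1.2
    have h7 : 0 ≤ v * (1000 * C1) := by positivity
    refine mem_iUnion₂.2 ⟨⌊v * (1000 * C1)⌋₊, ?_, hv, ?_, ?_⟩
    · rw [Finset.mem_range, hN, Nat.lt_add_one_iff]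
      exact Nat.floor_le_floor (by nlinarith)
    · rw [mul_one_div, div_le_iff₀ (by positivity)]
      exact Nat.floor_le h7
    · rw [mul_one_div, le_div_iff₀ (by positivity)]
      exact (Nat.lt_floor_add_one _).le
  calc volume B ≤ volume (⋃ j ∈ Finset.range N, B ∩ Icc ((j : ℝ) * (1 / (1000 * C1))) (((j : ℝ) + 1) * (1 / (1000 * C1)))) := measure_mono hcov
    _ ≤ ∑ j ∈ Finset.range N, volume (B ∩ Icc ((j : ℝ) * (1 / (1000 * C1))) (((j : ℝ) + 1) * (1 / (1000 * C1)))) :=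
        measure_biUnion_finset_le _ _
    _ ≤ ∑ _j ∈ Finset.range N, ENNReal.ofReal ((C : ℝ) * m * η * 10 ^ 6) := Finset.sum_le_sum fun j _ => key j
    _ = ENNReal.ofReal (N * ((C : ℝ) * m * η * 10 ^ 6)) := by
        rw [Finset.sum_const, Finset.card_range, nsmul_eq_mul, ← ENNReal.ofReal_natCast N, ← ENNReal.ofReal_mul (Nat.cast_nonneg N)]
    _ ≤ ENNReal.ofReal v0 := by
        refine ENNReal.ofReal_le_ofReal ?_
        calc (N : ℝ) * ((C : ℝ) * m * η * 10 ^ 6) = c0 * η := by rw [hc0]; ring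
          _ ≤ v0 := hcη

end

end Pool.Agent.VQE
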